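import Pool.Agent.Helper48.N9.Spure

/-! MP_9b91d1_co, section 6, row INNR (helper48). -/

open scoped RealInnerProductSpace Topology

namespace Pool.Agent.Helper30.N9

theorem det3_expand48 (n A B C : E3) :
    ⟪n, n⟫ * det3 A B C = ⟪n, A⟫ * det3 n B C + ⟪n, B⟫ * det3 n C A + ⟪n, C⟫ * det3 n A B := by
  simp only [inner_def, det3]
  ring

/-- Cramer identity in the plane orthogonal to n. -/
theorem plane_cramer48 {n A B C : E3} (hn : ‖n‖ = 1) (hA : ⟪n, A⟫ = (0 : ℝ))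
    (hB : ⟪n, B⟫ = (0 : ℝ)) (hC : ⟪n, C⟫ = (0 : ℝ)) :
    det3 n A C • B = det3 n B C • A + det3 n A B • C := by
  have h1 : det3 A B C = 0 := by
    have e1 := det3_expand48 n A B C
    rw [inner_self_one hn, hA, hB, hC] at e1
    linarith
  ext i
  simp only [PiLp.smul_apply, PiLp.add_apply, smul_eq_mul]
  have e3 : det3 n A C * B i = det3 n B C * A i + det3 n A B * C i - det3 A B C * n i := by
    obtain rfl | rfl | rfl : i = 0 ∨ i = 1 ∨ i = 2 := by fin_cases i <;> simp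
    all_goals simp only [det3]; ring
  rw [e3, h1]
  ring

/-- coordinates in the plane orthogonal to n. -/
theorem plane_det48 {n A B w : E3} (hn : ‖n‖ = 1) (hA : ⟪n, A⟫ = (0 : ℝ))
    (hB : ⟪n, B⟫ = (0 : ℝ)) :
    ⟪w, A⟫ * ⟪crs n w, B⟫ - ⟪w, B⟫ * ⟪crs n w, A⟫
      = (⟪w, w⟫ - ⟪n, w⟫ ^ 2) * det3 n A B := by
  have e1 : ⟪w, A⟫ * ⟪crs n w, B⟫ - ⟪w, B⟫ * ⟪crs n w, A⟫
      = ⟪w, w⟫ * det3 n A B - ⟪n, w⟫ * det3 w A B := by
    rw [crs_inner, crs_inner]
    simp only [inner_def, det3]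
    ring
  have e2 := det3_expand48 n w A B
  rw [inner_self_one hn, hA, hB] at e2
  rw [e1]
  have e3 : det3 w A B = ⟪n, w⟫ * det3 n A B := by linarith
  rw [e3]
  ring

/-- a point between. -/
theorem mem_arc48 {n A B C : E3} (hn : ‖n‖ = 1) (hA : ⟪n, A⟫ = (0 : ℝ))
    (hB : ⟪n, B⟫ = (0 : ℝ)) (hC : ⟪n, C⟫ = (0 : ℝ)) (uB : ‖B‖ = 1) (h1 : 0 < det3 n A C)
    (h2 : 0 ≤ det3 n B C) (h3 : 0 ≤ det3 n A B) : B ∈ arc A C := by
  refine ⟨uB, det3 n B C / det3 n A C, det3 n A B / det3 n A C, div_nonneg h2 h1.le,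
    div_nonneg h3 h1.le, ?_⟩
  have h4 := plane_cramer48 hn hA hB hC
  have h5 : (det3 n A C)⁻¹ • (det3 n A C • B) = B := by
    rw [smul_smul, inv_mul_cancel₀ h1.ne', one_smul]
  rw [h4, smul_add, smul_smul, smul_smul, inv_mul_eq_div, inv_mul_eq_div] at h5
  exact h5.symm

theorem det3_plane_ne48 {n A B : E3} (hn : ‖n‖ = 1) (uA : ‖A‖ = 1) (uB : ‖B‖ = 1)
    (hA : ⟪n, A⟫ = (0 : ℝ)) (hB : ⟪n, B⟫ = (0 : ℝ)) (h1 : A ≠ B) (h2 : A ≠ -B) :
    det3 n A B ≠ 0 := by
  intro h0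
  have h3 := crs_pos uA uB h1 h2
  have h4 : ⟪crs A B, crs A B⟫ = det3 n A B ^ 2 := by
    have h5 := plane_det48 (n := n) (A := A) (B := B) (w := A) hn hA hB
    rw [crs_inner_self, inner_self_one uA, inner_self_one uB]
    have h6 : det3 n A B ^ 2 + ⟪A, B⟫ ^ 2 = 1 := by
      have h7 : ⟪crs n A, crs n A⟫ = 1 := by
        rw [crs_inner_self, inner_self_one uA, inner_self_one hn, hA]
        norm_num
      have h8 : ⟪crs n A, B⟫ = det3 n A B := crs_inner n A B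
      have h9 : (⟪n, n⟫ * (⟪A, A⟫ * ⟪B, B⟫)) = ⟪n, n⟫ * ⟪A, B⟫ ^ 2 + det3 n A B ^ 2
          + ⟪n, A⟫ * (⟪n, A⟫ * ⟪B, B⟫ - ⟪A, B⟫ * ⟪n, B⟫)
          + ⟪n, B⟫ * (⟪n, B⟫ * ⟪A, A⟫ - ⟪A, B⟫ * ⟪n, A⟫) := by
        simp only [inner_def, det3]
        ring
      rw [inner_self_one uA, inner_self_one uB, inner_self_one hn, hA, hB] at h9
      linarith
    linarith
  rw [h4, h0] at h3
  norm_num at h3

theorem st_INNR : ST_INNR := by
  intro V _ _ M p h n U hp hE
  by_contra hcon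
  push Not at hcon
  obtain ⟨d0, hd0⟩ := hE.ex
  obtain ⟨w, hw⟩ : ∃ w, w = M.fc d0 := ⟨_, rfl⟩
  have hUw : U w := by rw [hw]; exact hd0.1
  have horth : ∀ e : M.G.Dart, M.fc e = w → ⟪n, p e.fst⟫ = (0 : ℝ) := by
    intro e he
    have h1 := hE.up e (by rw [he]; exact hUw)
    have h2 := hcon e.fst
    unfold PlaneGraph.InV at h2
    push Not at h2
    obtain ⟨f, hf1, hf2⟩ := h2
    have h3 := hE.dn f hf2
    rw [hf1] at h3
    exact le_antisymm h3 h1
  have hpos : ∀ e : M.G.Dart, M.fc e = w → 0 < ⟪h w, p e.fst⟫ := fun e he =>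
    ((hp.cen w).2 e (M.mem_fdarts.mpr he)).1
  obtain ⟨e, he, hmax⟩ := Finset.exists_max_image (M.fdarts w)
    (fun e => ⟪crs n (h w), p e.fst⟫ / ⟪h w, p e.fst⟫) ⟨d0, M.mem_fdarts.mpr hw.symm⟩
  rw [M.mem_fdarts] at he
  obtain ⟨e', he'⟩ : ∃ e', M.nxt e' = e := ⟨M.nxt.symm e, Equiv.apply_symm_apply _ _⟩
  have hfe' : M.fc e' = w := by rw [← M.fc_nxt, he', he]
  have hsnd' : e'.snd = e.fst := by rw [← M.nxt_fst, he']
  have hfn : M.fc (M.nxt e) = w := by rw [M.fc_nxt, he]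
  have hfs : (M.nxt e).fst = e.snd := M.nxt_fst e
  -- the three points
  have nA := horth e' hfe'
  have nC := horth e he
  have nB := horth _ hfn
  rw [hfs] at nB
  have pA := hpos e' hfe'
  have pC := hpos e he
  have pB := hpos _ hfn
  rw [hfs] at pB
  have mA := hmax e' (M.mem_fdarts.mpr hfe')
  have mB := hmax _ (M.mem_fdarts.mpr hfn)
  simp only [hfs] at mA mB
  have hK : 0 < ⟪h w, h w⟫ - ⟪n, h w⟫ ^ 2 := by
    have h1 : ⟪crs n (h w), crs n (h w)⟫ = ⟪h w, h w⟫ - ⟪n, h w⟫ ^ 2 := by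
      rw [crs_inner_self, inner_self_one hE.un, one_mul]
    rw [← h1]
    refine crs_pos hE.un (hp.cen w).1 ?_ ?_
    · intro h2
      rw [← h2, nC] at pC
      exact lt_irrefl _ pC
    · intro h2
      have h3 : h w = -n := by rw [h2, neg_neg]
      rw [h3, inner_neg_left, nC, neg_zero] at pC
      exact lt_irrefl _ pC
  have hne1 : p e'.fst ≠ p e.fst := by rw [← hsnd']; exact hp.inc.q_ne e'
  have hne1' : p e'.fst ≠ -p e.fst := by rw [← hsnd']; exact hp.inc.ne_neg e'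
  have hne2 : p e.snd ≠ p e.fst := (hp.inc.q_ne e).symm
  have hne2' : p e.snd ≠ -p e.fst := fun h1 => hp.inc.ne_neg e (by rw [h1, neg_neg])
  have dAC : 0 < det3 n (p e'.fst) (p e.fst) := by
    refine lt_of_le_of_ne ?_ (det3_plane_ne48 hE.un (hp.inc.unit _) (hp.inc.unit _) nA nC
      hne1 hne1').symm
    have h1 := plane_det48 (w := h w) hE.un nA nC
    rw [div_le_div_iff₀ pA pC] at mA
    by_contra h2
    push Not at h2
    have h3 := mul_neg_of_pos_of_neg hK h2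
    linarith
  have dBC : 0 < det3 n (p e.snd) (p e.fst) := by
    refine lt_of_le_of_ne ?_ (det3_plane_ne48 hE.un (hp.inc.unit _) (hp.inc.unit _) nB nC
      hne2 hne2').symm
    have h1 := plane_det48 (w := h w) hE.un nB nC
    rw [div_le_div_iff₀ pB pC] at mB
    by_contra h2
    push Not at h2
    have h3 := mul_neg_of_pos_of_neg hK h2
    linarith
  -- the two edges are different
  have hedge : e'.edge ≠ e.edge := by
    intro h1
    rcases (SimpleGraph.dart_edge_eq_iff _ _).mp h1 with h2 | h2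
    · have h3 := e.adj.ne
      exact h3 (by rw [← hsnd', h2])
    · have h3 := M.fc_symm_ne hp.per hp.c3 e
      rw [← h2, he, hfe'] at h3
      exact h3 rfl
  have hdiff : e'.fst ≠ e.snd := by
    intro h1
    apply hedge
    rw [SimpleGraph.dart_edge_eq_iff]
    right
    ext1
    refine Prod.ext ?_ ?_
    · exact h1
    · exact hsnd'
  rcases le_total 0 (det3 n (p e'.fst) (p e.snd)) with hs | hs
  · -- p e.snd on the arc of e'
    have h1 : p e.snd ∈ arc (p e'.fst) (p e'.snd) := by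
      rw [hsnd']
      exact mem_arc48 hE.un nA nB nC (hp.inc.unit _) dAC dBC.le hs
    obtain ⟨v, hv1, hv2, hv3⟩ := hp.inc.embed e' e hedge _ h1 (right_mem_arc (hp.inc.unit _))
    have h2 : e.snd = v := hp.inc.inj hv3
    rcases M.mem_edge hv1 with h3 | h3
    · exact hdiff (by rw [← h3, h2])
    · exact e.adj.ne (by
        have h4 : e.fst = e.snd := by rw [h2, h3, hsnd']
        exact h4)
  · have h1 : p e'.fst ∈ arc (p e.fst) (p e.snd) := by
      rw [arc_comm]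
      refine mem_arc48 hE.un nB nA nC (hp.inc.unit _) dBC dAC.le ?_
      have h2 : det3 n (p e.snd) (p e'.fst) = - det3 n (p e'.fst) (p e.snd) := by
        simp only [det3]
        ring
      rw [h2]
      linarith
    obtain ⟨v, hv1, hv2, hv3⟩ := hp.inc.embed e' e hedge _ (left_mem_arc (hp.inc.unit _)) h1
    have h2 : e'.fst = v := hp.inc.inj hv3
    rcases M.mem_edge hv2 with h3 | h3
    · exact e'.adj.ne (by
        have h4 : e'.fst = e'.snd := by rw [h2, h3, hsnd']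
        exact h4)
    · exact hdiff (by rw [h2, h3])

end Pool.Agent.Helper30.N9
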