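import Pool.Agent.Helper24.N9.Deg3

/-! MP_9b91d1_co, section 6, row SPURE (helper48). -/

open scoped RealInnerProductSpace Topology

namespace Pool.Agent.Helper30.N9

theorem det3_cyc48 (a b c : E3) : det3 a b c = det3 b c a := by
  simp only [det3]
  ring

namespace PlaneGraph

variable {V : Type} [Fintype V] [DecidableEq V] (M : PlaneGraph V)

theorem Equ.det_bd48 {M : PlaneGraph V} {p : V → E3} {n : E3} {U : M.Face → Prop}
    (hE : M.Equ p n U) {d : M.G.Dart} (hd : M.Bd U d) :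
    ∃ c : ℝ, 0 < c ∧ ∀ y, det3 (p d.fst) (p d.snd) y = c * ⟪n, y⟫ := by
  obtain ⟨c, hc, h1⟩ := hE.bd d hd
  refine ⟨c, hc, fun y => ?_⟩
  rw [← crs_inner, h1, inner_smul_left]
  rfl

theorem Equ.bd_fst48 {M : PlaneGraph V} {p : V → E3} {n : E3} {U : M.Face → Prop}
    (hE : M.Equ p n U) {d : M.G.Dart} (hd : M.Bd U d) : ⟪n, p d.fst⟫ = 0 := by
  obtain ⟨c, hc, h1⟩ := hE.det_bd48 hd
  have h2 := h1 (p d.fst)
  rw [det3_self_left] at h2
  rcases mul_eq_zero.mp h2.symm with h3 | h3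
  · exact absurd h3 hc.ne'
  · exact h3

theorem Equ.bd_snd48 {M : PlaneGraph V} {p : V → E3} {n : E3} {U : M.Face → Prop}
    (hE : M.Equ p n U) {d : M.G.Dart} (hd : M.Bd U d) : ⟪n, p d.snd⟫ = 0 := by
  obtain ⟨c, hc, h1⟩ := hE.det_bd48 hd
  have h2 := h1 (p d.snd)
  rw [det3_self_right] at h2
  rcases mul_eq_zero.mp h2.symm with h3 | h3
  · exact absurd h3 hc.ne'
  · exact h3

/-- both faces of a dart at an inner vertex. -/
theorem inD_of_inV48 {U : M.Face → Prop} {d : M.G.Dart} (hd : M.InV U d.fst) : M.InD U d := by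
  refine ⟨hd d rfl, ?_⟩
  rw [← M.fc_nxt d.symm]
  exact hd _ (M.nxt_fst d.symm)

theorem inD_symm48 {U : M.Face → Prop} {d : M.G.Dart} (hd : M.InD U d.symm) : M.InD U d := by
  refine ⟨?_, hd.1⟩
  have := hd.2
  rwa [SimpleGraph.Dart.symm_symm] at this

end PlaneGraph

theorem st_SPURE (FARKAS : ST_FARKAS) (INNR : ST_INNR) (POTC : ST_POTC) (HUBF : ST_HUBF) :
    ST_SPURE := by
  intro V _ _ M p q h h' n U hp hq hlm hle hE hPu g hg hgq hcov d hd
  classical
  obtain ⟨v0, hv0⟩ := INNR V M p h n U hp hE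
  obtain ⟨d0, hd0, -, -⟩ := M.exists_third hp.c3 v0 d d
  obtain ⟨om, hnn, hsy, hA, hne, heq⟩ := FARKAS V M p hlm {v | ¬ M.InV U v}
    ⟨d0, by rw [hd0]; simpa using hv0⟩
  have hsupp : ∀ e, om e ≠ 0 → M.InD U e := by
    intro e he
    by_cases h1 : M.InV U e.fst
    · exact M.inD_of_inV48 h1
    · by_cases h2 : M.InV U e.snd
      · exact M.inD_symm48 (M.inD_of_inV48 (d := e.symm) h2)
      · exact absurd (hA e h1 h2) he
  have heq' : ∀ v, M.InV U v → M.EqAt p om v := fun v hv => heq v (by simpa using hv)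
  have hwt : M.Wt om := ⟨hnn, hsy⟩
  have hcvx : M.Cvx p U := by
    intro e f he hf
    obtain ⟨c, hc, h1⟩ := hE.det_bd48 he
    rw [h1]
    exact mul_nonneg hc.le (hE.up f hf)
  obtain ⟨R, -, hR1, hR2, -⟩ := HUBF V M p q h h' hp hq hlm hle U om n g hwt hne hsupp heq'
    (POTC V M p h n U hp hE) hE.ex hcvx hE.un hg
    (by
      intro e he
      obtain ⟨c, hc, h1⟩ := hE.det_bd48 he
      rw [det3_cyc48, h1, real_inner_self_eq_norm_sq, hE.un]
      simpa using hc)
    (by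
      intro e he
      rw [hE.bd_fst48 he, neg_zero]
      exact hgq e he)
    (by
      intro y hy1 hy2
      by_contra hy
      obtain ⟨e, he⟩ := hE.ex
      obtain ⟨c, hc, h1⟩ := hE.det_bd48 he
      have h2 := hy1 e he
      rw [h1] at h2
      have h3 : ⟪n, y⟫ = 0 := by
        rcases mul_eq_zero.mp h2 with h4 | h4
        · exact absurd h4 hc.ne'
        · exact h4
      obtain ⟨f, hf⟩ := hne
      refine hf (hPu (nrm y) (norm_nrm hy) ?_ om hwt hsupp heq' ?_ f)
      · unfold nrm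
        rw [inner_smul_right, h3, mul_zero]
      · intro e' he'
        rw [det3_cyc48, det3_nrm, hy2 e' he', mul_zero])
    hcov
  rw [hR2 d hd, ← hR1, LinearIsometryEquiv.inner_map_map, inner_neg_left, hE.bd_fst48 hd, neg_zero]

end Pool.Agent.Helper30.N9
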